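import Pool.Agent.N600.G3.Stm

/-!
# G3/INT: finitely generated groups of algebraic integers
-/

set_option autoImplicit false

namespace Pool.Agent.N833.G3

open Pool.Agent.N600.G3

universe u

theorem t_int : S_INT.{u} := by
  classical
  intro R _ V _ _ q hq P hP
  by_contra hcon
  push Not at hcon
  apply hP
  -- every element is integral
  have hint : Algebra.IsIntegral ℤ (R ⧸ P) := by
    refine ⟨fun y => ?_⟩
    obtain ⟨r, rfl⟩ := Ideal.Quotient.mk_surjective y
    have hr : r ∈ Submodule.span ℤ (Set.range q) := by
      rw [hq]
      trivial
    induction hr using Submodule.span_induction with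
    | mem x hx =>
      obtain ⟨v, rfl⟩ := hx
      exact hcon v
    | zero =>
      rw [map_zero]
      exact isIntegral_zero
    | add x y _ _ hx hy =>
      rw [map_add]
      exact hx.add hy
    | smul a x _ hx =>
      rw [zsmul_eq_mul, map_mul, map_intCast]
      exact (isIntegral_algebraMap (R := ℤ) (A := R ⧸ P) (x := a)).mul hx
  -- the algebra is of finite type
  have hft : Algebra.FiniteType ℤ (R ⧸ P) := by
    have hV : Monoid.FG V := inferInstance
    obtain ⟨T, hT⟩ := (Monoid.fg_def.1 hV)
    refine ⟨⟨T.image (fun v => Ideal.Quotient.mk P (q v)), ?_⟩⟩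
    rw [eq_top_iff]
    intro y _
    obtain ⟨r, rfl⟩ := Ideal.Quotient.mk_surjective y
    have hv : ∀ v : V, Ideal.Quotient.mk P (q v) ∈
        Algebra.adjoin ℤ ((T.image (fun v => Ideal.Quotient.mk P (q v)) : Finset (R ⧸ P)) :
          Set (R ⧸ P)) := by
      intro v
      have h1 : v ∈ Submonoid.closure (T : Set V) := by
        rw [hT]
        trivial
      induction h1 using Submonoid.closure_induction with
      | mem x hx =>
        refine Algebra.subset_adjoin ?_
        rw [Finset.coe_image]
        exact ⟨x, hx, rfl⟩
      | one =>
        rw [map_one, map_one]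
        exact one_mem _
      | mul x y _ _ hx hy =>
        rw [map_mul, map_mul]
        exact mul_mem hx hy
    have hr : r ∈ Submodule.span ℤ (Set.range q) := by
      rw [hq]
      trivial
    induction hr using Submodule.span_induction with
    | mem x hx =>
      obtain ⟨v, rfl⟩ := hx
      exact hv v
    | zero =>
      rw [map_zero]
      exact zero_mem _
    | add x y _ _ hx hy =>
      rw [map_add]
      exact add_mem (hx trivial) (hy trivial)
    | smul a x _ hx =>
      rw [zsmul_eq_mul, map_mul, map_intCast]
      exact mul_mem (intCast_mem _ a) (hx trivial)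
  exact Algebra.IsIntegral.finite

end Pool.Agent.N833.G3
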